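import Pool.Agent.R496.FP.LO
import Pool.Agent.R496.FP.SG
import Pool.Agent.R496.FP.MA
import Pool.Agent.R496.FP.MI
import Pool.Agent.R496.FP.AV
import Pool.Agent.R496.FP.AM
import Pool.Agent.R496.FP.OR
import Pool.Agent.R496.FP.CR
import Pool.Agent.R496.FP.HO
import Pool.Agent.R496.FP.HT
import Pool.Agent.R496.FP.LC
import Pool.Agent.R496.FP.GB
import Pool.Agent.R496.FP.FA
import Pool.Agent.R496.FP.FB
import Pool.Agent.R496.FP.IN
import Pool.Agent.R496.FP.EX
import Pool.Agent.R496.FP.PH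
import Pool.Agent.R496.FP.CH
import Pool.Agent.R496.FP.LD
import Pool.Agent.R496.FP.UP
import Pool.Agent.R496.FP.M2
import Pool.Agent.R496.FP.FIN2

/-!
# MP_0ad054_nt: a positive proportion of the odd numbers, with Chen pairs

For a positive proportion of the odd numbers `n` the statement of the question holds with
that `p` and `p - 2` are prime replaced by: `p` is prime and `p - 2` is a product of at most two primes,
and moreover with the expected order of magnitude `n / log² n` for the number of representations.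
-/

set_option autoImplicit false

namespace Pool.Agent.Results.MP_0ad054_nt.ChenPairsPositiveProportion

/-- `v = (x, y, z, w)` is a representation `n = x² + y² + z² + w²` for which
`p = x² + 3 y² + 5 z² + 7 w²` is a prime, `p > 7`, and `p - 2` is a product of at most two primes
(counted with multiplicity), all of them larger than `n ^ η`. -/
def ChenRep (η : ℝ) (n : ℕ) (v : ℤ × ℤ × ℤ × ℤ) : Prop :=
  (n : ℤ) = v.1 ^ 2 + v.2.1 ^ 2 + v.2.2.1 ^ 2 + v.2.2.2 ^ 2 ∧
  ∃ p : ℕ, (p : ℤ) = v.1 ^ 2 + 3 * v.2.1 ^ 2 + 5 * v.2.2.1 ^ 2 + 7 * v.2.2.2 ^ 2 ∧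
    p.Prime ∧ 7 < p ∧ (p - 2).primeFactorsList.length ≤ 2 ∧
    ∀ l : ℕ, l.Prime → l ∣ p - 2 → (n : ℝ) ^ η < l

theorem result : ∃ η : ℝ, 0 < η ∧ ∃ c : ℝ, 0 < c ∧ ∃ N₀ : ℕ, ∀ N : ℕ, N₀ ≤ N →
    c * N ≤ (({n : ℕ | n ≤ N ∧ Odd n ∧
      c * N / Real.log N ^ 2 ≤ (({v : ℤ × ℤ × ℤ × ℤ | ChenRep η n v}).ncard : ℝ)}).ncard : ℝ) := by
  have hGB := Pool.Agent.R496.FP.gb
  have hFA := Pool.Agent.R496.FP.fa
  have hEX := Pool.Agent.R496.FP.ex
  have hFB := Pool.Agent.R496.FP.fb hGB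
  have hIN := Pool.Agent.R496.FP.inn
  have hMI := Pool.Agent.R496.FP.mi hFA hFB
  have hMA := Pool.Agent.R496.FP.ma hFA hFB hGB hIN
  have hOR := Pool.Agent.R496.FP.orr
  have hCR := Pool.Agent.R496.FP.cr
  have hHO := Pool.Agent.R496.FP.ho
  have hHT := Pool.Agent.R496.FP.ht
  have hLC := Pool.Agent.R496.FP.lc
  have hAM := Pool.Agent.R496.FP.am hOR hCR
  have hAV := Pool.Agent.R496.FP.av hGB hOR hHO hHT hLC
  have hSG := Pool.Agent.R496.FP.sg hOR hCR hLC hAM hAV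
  have hLO := Pool.Agent.R496.FP.lo hFA hEX hMI hMA hSG
  have hUP := Pool.Agent.R496.FP.up Pool.Agent.R496.FP.ld
  exact Pool.Agent.R496.FP.plain (Pool.Agent.R496.FP.fin hUP Pool.Agent.R496.FP.m2
    Pool.Agent.R496.FP.ph Pool.Agent.R496.FP.ch hLO)

end Pool.Agent.Results.MP_0ad054_nt.ChenPairsPositiveProportion
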