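import Pool.Agent.R490.Tup
import Pool.Agent.R490.Adm

set_option autoImplicit false

/-!
# Four squares and twin primes: narrow progressions in arbitrary sets of represented pairs
-/

namespace Pool.Agent.Results.MP_0ad054_nt.NarrowProgressions

open Finset Filter

/-- `p` is the value of `x² + 3 y² + 5 z² + 7 w²` at a representation of `n` as a sum of four squares. -/
def Val (n p : ℕ) : Prop := ∃ x y z w : ℤ,
  (n : ℤ) = x ^ 2 + y ^ 2 + z ^ 2 + w ^ 2 ∧ (p : ℤ) = x ^ 2 + 3 * y ^ 2 + 5 * z ^ 2 + 7 * w ^ 2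

/-- The `m` for which `p = m + 2` is a value at a representation of `n` and all prime factors of `p - 2` and `p`
exceed `m ^ (1 / r)`. For `r ≥ 2` this set contains all `m ≥ 2` for which `p` is a value and `p - 2` and `p` are
primes, which is what the question asks for. -/
def RoughValues (n r : ℕ) : Set ℕ :=
  {m | Val n (m + 2) ∧ ∀ l : ℕ, l.Prime → l ∣ m ∨ l ∣ m + 2 → (m : ℝ) ^ (1 / (r : ℝ)) < (l : ℝ)}

/-- `m` is a term of a `k`-term arithmetic progression with difference at most `D`, all terms of which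
are elements of `A` in `(a, b)`. -/
def InProgression (A : Set ℕ) (k : ℕ) (D : ℝ) (a b m : ℕ) : Prop :=
  ∃ u d : ℕ, 1 ≤ d ∧ (d : ℝ) ≤ D ∧ (∀ i < k, u + i * d ∈ A ∧ a < u + i * d ∧ u + i * d < b) ∧
    ∃ i < k, m = u + i * d

open Classical in
/-- **Narrow progressions of represented twin primes.** Let `θ, ε > 0` and `r, k ≥ 2`. There is an exponent `B`
such that for all large `X`, all `Y` with `X ^ θ ≤ Y ≤ X`, EVERY `n` (large or small compared with `X`) and EVERY
set `A` of elements of `RoughValues n r`, for instance the set of all `m` for which `p = m + 2` is a value of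
`x² + 3 y² + 5 z² + 7 w²` at a representation of `n` and `p - 2`, `p` are primes: all but at most
`ε Y / (log X) ^ 2` of the elements of `A` in `(X, X + Y]` are terms of `k`-term arithmetic progressions with
difference at most `(log X) ^ B`, all terms of which are in `A`, that is, the corresponding pairs are values at
representations of the same `n`. -/
theorem result (θ : ℝ) (hθ : 0 < θ) (r : ℕ) (hr : 2 ≤ r) (k : ℕ) (hk : 2 ≤ k) (ε : ℝ) (hε : 0 < ε) :
    ∃ B : ℕ, ∀ᶠ X : ℕ in atTop, ∀ Y : ℕ, (X : ℝ) ^ θ ≤ Y → Y ≤ X →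
      ∀ n : ℕ, ∀ A : Set ℕ, A ⊆ RoughValues n r →
        (((Ioc X (X + Y)).filter (fun m : ℕ =>
          m ∈ A ∧ ¬ InProgression A k (Real.log X ^ B) X (X + Y + 1) m)).card : ℝ) ≤
        ε * (Y / Real.log X ^ 2) := by
  obtain ⟨B, h⟩ := Pool.Agent.R490.Tu.narH {0, 2} ⟨0, by decide⟩ Pool.Agent.R490.Tu.adm_tw θ hθ r hr k hk
    ε hε
  have hc : ({0, 2} : Finset ℕ).card = 2 := by decide
  rw [hc] at h
  refine ⟨B, ?_⟩
  filter_upwards [h] with X hX Y hXY hYX n A hA
  exact hX Y hXY hYX A (fun m hm g hg l hl hd => (hA hm).2 l hl (by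
    simp only [Finset.mem_insert, Finset.mem_singleton] at hg
    rcases hg with rfl | rfl
    · left; rwa [add_zero] at hd
    · right; exact hd))

end Pool.Agent.Results.MP_0ad054_nt.NarrowProgressions
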