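import Pool.Agent.R490.Tq

set_option autoImplicit false

/-!
# Four squares and twin primes: regular points of arbitrary sets of represented pairs, in all progressions
-/

namespace Pool.Agent.Results.MP_0ad054_nt.RegularPoints

open Finset Filter

/-- `p` is the value of `x² + 3 y² + 5 z² + 7 w²` at a representation of `n` as a sum of four squares. -/
def Val (n p : ℕ) : Prop := ∃ x y z w : ℤ,
  (n : ℤ) = x ^ 2 + y ^ 2 + z ^ 2 + w ^ 2 ∧ (p : ℤ) = x ^ 2 + 3 * y ^ 2 + 5 * z ^ 2 + 7 * w ^ 2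

/-- For `p = q m + a + 2`: `p` is a value at a representation of `n` and none of `p - 2`, `p` has a prime
factor `≤ s`. -/
def Good (n q a s m : ℕ) : Prop := Val n (q * m + a + 2) ∧
  ∀ l : ℕ, l.Prime → l ≤ s → ¬ l ∣ q * m + a ∧ ¬ l ∣ q * m + a + 2

/-- The product of `1 - 2 / p` over the primes `p ≤ s` which do not divide `q`. -/
noncomputable def V (q s : ℕ) : ℝ :=
  ∏ p ∈ (Finset.range (s + 1)).filter Nat.Prime, (1 - (if p ∣ q then 0 else 2 : ℕ) / (p : ℝ))

open Classical in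
/-- The number of elements of `S` in `(a, b]`. -/
noncomputable def count (S : Set ℕ) (a b : ℕ) : ℕ := ((Finset.Ioc a b).filter (fun m => m ∈ S)).card

/-- All intervals `(m - s, m + t]` with `s, t ≤ Y` of length at least `L / κ` contain between
`κ (s + t) / L` and `(s + t) / (κ L)` elements of `S`. -/
def RightOrder (S : Set ℕ) (L κ : ℝ) (Y m : ℕ) : Prop :=
  ∀ s t : ℕ, s ≤ Y → t ≤ Y → L ≤ κ * (s + t) →
    κ * (s + t) / L ≤ count S (m - s) (m + t) ∧ (count S (m - s) (m + t) : ℝ) ≤ (s + t) / (κ * L)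

/-- Up to `δ`, `S` has a constant density on both sides of `m` up to the distance `2 ^ j`. -/
def ConstantDensity (S : Set ℕ) (L κ δ : ℝ) (m j : ℕ) : Prop :=
  ∃ lam : ℝ, κ ≤ lam ∧ lam ≤ 1 / κ ∧ ∀ s t : ℕ, s ≤ 2 ^ j → t ≤ 2 ^ j →
    |(count S (m - s) (m + t) : ℝ) - lam * (s + t) / L| ≤ δ * 2 ^ j / L

open Classical in
/-- The number of the scales `L ≤ 2 ^ j ≤ Y` without this property. -/
noncomputable def badScales (S : Set ℕ) (L κ δ : ℝ) (Y m : ℕ) : ℕ :=
  ((Finset.range (Nat.log 2 Y + 1)).filter (fun j => L ≤ (2 : ℝ) ^ j ∧ ¬ ConstantDensity S L κ δ m j)).card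

/-- The elements of `S` that are not regular points of `S`. -/
def Irregular (S : Set ℕ) (L κ δ : ℝ) (M Y : ℕ) : Set ℕ :=
  {m | m ∈ S ∧ ¬ (RightOrder S L κ Y m ∧ badScales S L κ δ Y m ≤ M)}

lemma nu2 {q p : ℕ} (hp : p.Prime) (hq : 2 ∣ q) :
    Pool.Agent.R490.Tq.nu {0, 2} q p = if p ∣ q then 0 else 2 := by
  unfold Pool.Agent.R490.Tq.nu
  split_ifs with h
  · rfl
  · have h2 : p ≠ 2 := fun hd => h (hd ▸ hq)
    have h3 : 3 ≤ p := by have := hp.two_le; omega
    rw [Finset.card_image_of_injOn, Finset.card_pair (by norm_num)]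
    intro x hx y hy hxy
    have hxy' : x % p = y % p := hxy
    simp only [Finset.coe_insert, Finset.coe_singleton, Set.mem_insert_iff, Set.mem_singleton_iff] at hx hy
    rwa [Nat.mod_eq_of_lt (by omega), Nat.mod_eq_of_lt (by omega)] at hxy'

lemma V_eq {q s : ℕ} (hq : 2 ∣ q) : Pool.Agent.R490.Tq.V {0, 2} q s = V q s := by
  unfold Pool.Agent.R490.Tq.V V
  apply Finset.prod_congr rfl
  intro p hp
  rw [nu2 (mem_filter.1 hp).2 hq]

/-- **Regular points of arbitrary sets of represented pairs.** Let `θ > 0`. There is `r0` such that for `r ≥ r0` and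
`ε > 0` there is `κ > 0`, and for `δ > 0` there is `M`, such that for all large `n`, with `s = n ^ (1 / r)`, ALL even
moduli `q ≤ n` and all `a ≤ n` with `q` prime to `a` and `a + 2`, all intervals `(u, u + Y]` with `n ^ θ ≤ Y ≤ n`,
`Y ≤ u`, and EVERY set `S` of `m` such that `p = q m + a + 2` is a value of `x² + 3 y² + 5 z² + 7 w²` at a
representation `n = x² + y² + z² + w²` and `p - 2`, `p` have no prime factor `≤ s`, for instance the set of all `m`
for which `p` is a value and `p - 2`, `p` are primes `> s`, or any subset: all but at most `ε Y V` of the elements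
of `S` in `(u, u + Y]` are regular points of `S`: all intervals around them of length at least `1 / (κ V)` and at
most `Y` to each side contain the right order of elements of `S`, and `S` has a constant density up to `δ` around
them at all but `M` dyadic scales. -/
theorem result (θ : ℝ) (hθ : 0 < θ) :
    ∃ r0 : ℕ, 2 ≤ r0 ∧ ∀ r : ℕ, r0 ≤ r → ∀ ε : ℝ, 0 < ε → ∃ κ : ℝ, 0 < κ ∧
      ∀ δ : ℝ, 0 < δ → ∃ M : ℕ, ∀ᶠ n : ℕ in atTop, ∀ s : ℕ, s = ⌊(n : ℝ) ^ (1 / (r : ℝ))⌋₊ →
      ∀ q a : ℕ, 1 ≤ q → 2 ∣ q → q ≤ n → a ≤ n → Nat.Coprime q a → Nat.Coprime q (a + 2) →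
      ∀ u Y : ℕ, (n : ℝ) ^ θ ≤ Y → Y ≤ n → Y ≤ u → ∀ S : Set ℕ, (∀ m ∈ S, Good n q a s m) →
        (count (Irregular S (1 / V q s) κ δ M Y) u (u + Y) : ℝ) ≤ ε * (Y * V q s) := by
  obtain ⟨r0, hr0, h0⟩ := Pool.Agent.R490.Tq.treg 2 1 le_rfl θ hθ
  refine ⟨r0, hr0, fun r hr ε hε => ?_⟩
  obtain ⟨κ, hκ, h1⟩ := h0 r hr ε hε
  refine ⟨κ, hκ, fun δ hδ => ?_⟩
  obtain ⟨M, h2⟩ := h1 δ hδ
  refine ⟨M, ?_⟩
  filter_upwards [h2, eventually_ge_atTop 2] with n hn hn2
  intro s hs q a hq1 hq hqn han hco hco2 u Y hY hYn hYu S hS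
  have h3 := hn s hs {0, 2} (Finset.card_pair (by norm_num)) (by
      intro h hh
      simp only [Finset.mem_insert, Finset.mem_singleton] at hh
      rw [pow_one]
      omega) (Pool.Agent.R490.Tq.adm_pair 2 (by decide)) q a hq1 (by rw [pow_one]; exact hqn)
    (by rw [pow_one]; exact han) (by
      intro h hh
      simp only [Finset.mem_insert, Finset.mem_singleton] at hh
      rcases hh with rfl | rfl
      · rwa [add_zero]
      · exact hco2) u Y hY hYn hYu S (fun m hm p hp hps h hh => by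
      simp only [Finset.mem_insert, Finset.mem_singleton] at hh
      rcases hh with rfl | rfl
      · rw [add_zero]; exact ((hS m hm).2 p hp hps).1
      · exact ((hS m hm).2 p hp hps).2)
  rw [V_eq hq] at h3
  exact h3

end Pool.Agent.Results.MP_0ad054_nt.RegularPoints
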