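import Mathlib
import Pool.Agent.R494.RC4

set_option autoImplicit false

/-!
# The question in random models of the primes

The question is whether every positive odd `n` is a sum of four squares `x² + y² + z² + w²` such that
`p = x² + 3y² + 5z² + 7w²` and `p - 2` are both prime.  We answer it for all large odd `n`, with an
asymptotic formula for the number of representations, in EVERY sequential random model of the
primes: the integers are decided one after the other, only integers coprime to a fixed `Q` can be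
chosen, and the conditional probability of choosing `n + 1` (coprime to `Q`) given the past is
asymptotic to `(Q / φ(Q)) / log n`.  No independence is assumed.
-/

open MeasureTheory Filter
open scoped Topology

namespace Pool.Agent.Results.MP_0ad054_nt.SievedModels

/-- the representations `n = x² + y² + z² + w²` such that `p = x² + 3y² + 5z² + 7w²` and `p - 2`
both belong to `S` -/
def reps (S : Set ℕ) (n : ℕ) : Set (ℤ × ℤ × ℤ × ℤ) :=
  {v | (n : ℤ) = v.1 ^ 2 + v.2.1 ^ 2 + v.2.2.1 ^ 2 + v.2.2.2 ^ 2 ∧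
    ∃ p ∈ S, ∃ q ∈ S, (p : ℤ) = v.1 ^ 2 + 3 * v.2.1 ^ 2 + 5 * v.2.2.1 ^ 2 + 7 * v.2.2.2 ^ 2 ∧
      (p : ℤ) - 2 = q}

open Pool.Agent.R494.RC Pool.Agent.W65.FS

/-- the four coordinates -/
def coords (X : Fin 4 → ℤ) : ℤ × ℤ × ℤ × ℤ := (X 0, X 1, X 2, X 3)

lemma coords_inj : Function.Injective coords := by
  intro X Y h
  unfold coords at h
  simp only [Prod.mk.injEq] at h
  obtain ⟨h0, h1, h2, h3⟩ := h
  funext i
  fin_cases i
  · exact h0
  · exact h1
  · exact h2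
  · exact h3

open Classical in
lemma reps_eq (S : Set ℕ) (n : ℕ) (hn : 3 ≤ n) :
    reps S n = coords '' (((vec n).filter (fun X => val X - 2 ∈ S ∧ val X ∈ S) : Finset (Fin 4 → ℤ)) : Set (Fin 4 → ℤ)) := by
  ext ⟨x, y, z, w⟩
  rw [Set.mem_image]
  constructor
  · rintro ⟨h1, p, hp, q, hq, h2, h3⟩
    simp only at h1 h2
    refine ⟨![x, y, z, w], ?_, rfl⟩
    have hpf : pf ![x, y, z, w] = p := by
      rw [h2]
      rfl
    have hv : val ![x, y, z, w] = p := by
      have := val_cast ![x, y, z, w]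
      rw [hpf] at this
      exact_mod_cast this
    rw [Finset.mem_coe, Finset.mem_filter, mem_vec, Fin.sum_univ_four, hv]
    refine ⟨?_, ?_, hp⟩
    · rw [h1]
      rfl
    · have : p - 2 = q := by omega
      rw [this]
      exact hq
  · rintro ⟨X, hX, hXe⟩
    rw [Finset.mem_coe, Finset.mem_filter] at hX
    obtain ⟨hX1, hX2, hX3⟩ := hX
    have hlow := val_low hX1
    rw [mem_vec, Fin.sum_univ_four] at hX1
    unfold coords at hXe
    simp only [Prod.mk.injEq] at hXe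
    obtain ⟨rfl, rfl, rfl, rfl⟩ := hXe
    refine ⟨hX1.symm, val X, hX3, val X - 2, hX2, ?_, by omega⟩
    rw [val_cast]
    rfl

open Classical in
lemma reps_card (S : Set ℕ) (n : ℕ) (hn : 3 ≤ n) :
    (reps S n).ncard = ((vec n).filter (fun X => val X - 2 ∈ S ∧ val X ∈ S)).card := by
  rw [reps_eq S n hn, Set.ncard_image_of_injective _ coords_inj, Set.ncard_coe_finset]

lemma reps_coprime (Q n : ℕ) (hn : 3 ≤ n) : (reps {k : ℕ | Nat.Coprime k Q} n).ncard = (good Q n).card := by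
  classical
  rw [reps_card _ n hn]
  unfold good
  congr 1
  ext X
  simp only [Finset.mem_filter, Set.mem_ofPred_eq]
  tauto

lemma reps_chosen {Ω : Type} {A : ℕ → Set Ω} (Q : ℕ) (hcop : ∀ n, ¬ Nat.Coprime n Q → A n = ∅)
    (ω : Ω) (n : ℕ) (hn : 3 ≤ n) :
    ((reps {k : ℕ | ω ∈ A k} n).ncard : ℝ) = ∑ X ∈ good Q n,
      Pool.Agent.R528.RM.In A (val X - 2) ω * Pool.Agent.R528.RM.In A (val X) ω := by
  classical
  have h1 : (vec n).filter (fun X => val X - 2 ∈ {k : ℕ | ω ∈ A k} ∧ val X ∈ {k : ℕ | ω ∈ A k}) =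
      (good Q n).filter (fun X => ω ∈ A (val X - 2) ∧ ω ∈ A (val X)) := by
    ext X
    unfold good
    rw [Finset.mem_filter, Finset.mem_filter, Finset.mem_filter]
    simp only [Set.mem_ofPred_eq]
    constructor
    · rintro ⟨g1, g2, g3⟩
      refine ⟨⟨g1, ?_, ?_⟩, g2, g3⟩
      · by_contra hc
        rw [hcop _ hc] at g3
        exact g3
      · by_contra hc
        rw [hcop _ hc] at g2
        exact g2
    · rintro ⟨⟨g1, -, -⟩, g2, g3⟩
      exact ⟨g1, g2, g3⟩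
  rw [reps_card _ n hn, h1, Finset.card_filter]
  push_cast
  refine Finset.sum_congr rfl fun X _ => ?_
  unfold Pool.Agent.R528.RM.In
  by_cases h2 : ω ∈ A (val X - 2)
  · by_cases h3 : ω ∈ A (val X)
    · simp [h2, h3]
    · simp [h2, h3]
  · simp [h2]

lemma big (Q : ℕ) (hQ : 0 < Q) (s : ℝ) (hs : 0 < s) :
    ∀ᶠ n : ℕ in atTop, (2 : ℝ) ≤ (n : ℝ) ^ s * (((Q : ℝ) / Nat.totient Q) / Real.log n) ^ 2 := by
  have hc := c_pos Q hQ
  set c : ℝ := (Q : ℝ) / Nat.totient Q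
  have h1 := (isLittleO_log_rpow_rpow_atTop (2 : ℝ) hs).bound (show (0 : ℝ) < c ^ 2 / 2 by positivity)
  filter_upwards [tendsto_natCast_atTop_atTop.eventually h1, eventually_ge_atTop 5] with n h2 h4
  have hn : (5 : ℝ) ≤ n := by exact_mod_cast h4
  have hn0 : (0 : ℝ) < n := by linarith
  have hL : 0 < Real.log n := Real.log_pos (by linarith)
  rw [Real.norm_eq_abs, Real.norm_eq_abs, abs_of_nonneg (Real.rpow_nonneg hL.le _),
    abs_of_nonneg (Real.rpow_nonneg hn0.le _)] at h2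
  have e5 : Real.log n ^ (2 : ℝ) = Real.log n ^ (2 : ℕ) := by
    rw [← Real.rpow_natCast]; norm_num
  rw [e5] at h2
  rw [div_pow, ← mul_div_assoc, le_div_iff₀ (by positivity)]
  linarith

end Pool.Agent.Results.MP_0ad054_nt.SievedModels

open Pool.Agent.Results.MP_0ad054_nt.SievedModels

/-- Let `A n` be the event that `n` belongs to a random set adapted to a filtration `ℱ`, let
`Q ≥ 1`, let no integer which is not coprime to `Q` be chosen, and let the conditional probability of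
`A (n + 1)` given `ℱ n`, times `log n`, tend to `Q / φ(Q)` along the `n` with `n + 1` coprime to `Q`,
almost surely.  Let `R(n)` be the number of `(x, y, z, w)` with `n = x² + y² + z² + w²` for which
`p = x² + 3y² + 5z² + 7w²` and `p - 2` are chosen, and `N(n)` the number of those for which both are
coprime to `Q`.  (1) For every `ε > 0`, `N(n) ≥ n ^ (1 - ε)` for all large odd `n`.  (2) Almost surely
`R(n)` is asymptotic to `N(n) ((Q / φ(Q)) / log n)²` as `n → ∞`, `n` odd.  (3) Almost surely, for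
every `ε > 0`, `R(n) ≥ n ^ (1 - ε)` for all large odd `n`. -/
theorem Pool.Agent.Results.MP_0ad054_nt.SievedModels.result
    {Ω : Type} [mΩ : MeasurableSpace Ω] (μ : Measure Ω) [IsProbabilityMeasure μ]
    (ℱ : Filtration ℕ mΩ) (A : ℕ → Set Ω) (hA : ∀ n, MeasurableSet[ℱ n] (A n))
    (Q : ℕ) (hQ : 0 < Q) (hcop : ∀ n, ¬ Nat.Coprime n Q → A n = ∅)
    (hd : ∀ᵐ ω ∂μ, Tendsto (fun n : ℕ =>
      (μ[(A (n + 1)).indicator (fun _ => (1 : ℝ)) | ℱ n]) ω * Real.log n)
      (atTop ⊓ 𝓟 {n : ℕ | Nat.Coprime (n + 1) Q}) (𝓝 ((Q : ℝ) / Nat.totient Q))) :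
    (∀ ε : ℝ, 0 < ε → ∀ᶠ n : ℕ in atTop, Odd n →
      (n : ℝ) ^ (1 - ε) ≤ (reps {k : ℕ | Nat.Coprime k Q} n).ncard) ∧
    (∀ᵐ ω ∂μ, ∀ ε : ℝ, 0 < ε → ∀ᶠ n : ℕ in atTop, Odd n →
      |((reps {k : ℕ | ω ∈ A k} n).ncard : ℝ) -
        (reps {k : ℕ | Nat.Coprime k Q} n).ncard * (((Q : ℝ) / Nat.totient Q) / Real.log n) ^ 2| ≤
      ε * ((reps {k : ℕ | Nat.Coprime k Q} n).ncard *
        (((Q : ℝ) / Nat.totient Q) / Real.log n) ^ 2)) ∧
    (∀ᵐ ω ∂μ, ∀ ε : ℝ, 0 < ε → ∀ᶠ n : ℕ in atTop, Odd n →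
      (n : ℝ) ^ (1 - ε) ≤ (reps {k : ℕ | ω ∈ A k} n).ncard) := by
  have h1 : ∀ ε : ℝ, 0 < ε → ∀ᶠ n : ℕ in atTop, Odd n →
      (n : ℝ) ^ (1 - ε) ≤ (reps {k : ℕ | Nat.Coprime k Q} n).ncard := by
    intro ε hε
    filter_upwards [Pool.Agent.R494.RC.many ε hε Q hQ, eventually_ge_atTop 3] with n g1 g2 hn
    rw [reps_coprime Q n g2]
    exact g1 hn
  have h2 : ∀ᵐ ω ∂μ, ∀ ε : ℝ, 0 < ε → ∀ᶠ n : ℕ in atTop, Odd n →
      |((reps {k : ℕ | ω ∈ A k} n).ncard : ℝ) -
        (reps {k : ℕ | Nat.Coprime k Q} n).ncard * (((Q : ℝ) / Nat.totient Q) / Real.log n) ^ 2| ≤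
      ε * ((reps {k : ℕ | Nat.Coprime k Q} n).ncard *
        (((Q : ℝ) / Nat.totient Q) / Real.log n) ^ 2) := by
    filter_upwards [Pool.Agent.R494.RC.law (μ := μ) (ℱ := ℱ) hA Q hQ hcop hd] with ω hω ε hε
    filter_upwards [hω ε hε, eventually_ge_atTop 3] with n g1 g2 hn
    rw [reps_coprime Q n g2, reps_chosen Q hcop ω n g2]
    exact g1 hn
  refine ⟨h1, h2, ?_⟩
  filter_upwards [h2] with ω hω ε hε
  filter_upwards [hω (1 / 2) (by norm_num), h1 (ε / 2) (by positivity), big Q hQ (ε / 2) (by positivity),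
    eventually_ge_atTop 3] with n g1 g2 g3 g4 hn
  have hn0 : (0 : ℝ) < n := by exact_mod_cast (by omega : 0 < n)
  have k1 := (abs_le.1 (g1 hn)).1
  have k2 := g2 hn
  set N : ℝ := ((reps {k : ℕ | Nat.Coprime k Q} n).ncard : ℝ)
  set u : ℝ := (((Q : ℝ) / Nat.totient Q) / Real.log n) ^ 2 with hu
  have hu0 : 0 ≤ u := sq_nonneg _
  have k3 : (n : ℝ) ^ (1 - ε / 2) * u ≤ N * u := mul_le_mul_of_nonneg_right k2 hu0
  have k4 : (n : ℝ) ^ (1 - ε / 2) = (n : ℝ) ^ (1 - ε) * (n : ℝ) ^ (ε / 2) := by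
    rw [← Real.rpow_add hn0]
    congr 1
    ring
  have k5 : (n : ℝ) ^ (1 - ε) * 2 ≤ (n : ℝ) ^ (1 - ε) * ((n : ℝ) ^ (ε / 2) * u) :=
    mul_le_mul_of_nonneg_left g3 (by positivity)
  rw [k4] at k3
  linarith
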